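import Mathlib

/-!
# MP_1e7c77_al, S00882: conjugated orders which do not extend. Statements

`G = N ×_c Γ` (amalgamated over `c`), `N` the Heisenberg group `⟨a, b, c⟩`, `c` central in `Γ`,
`x, y ∈ Γ` with `x ^ 4 = y ^ 3 = c`, `(x y) ^ 5 = c ^ 3` (`Γ` = homeomorphisms of the line which
commute with `c z = z + 1`, `x z = z + 1 / 4`). Conjugation by `b ^ (1 / 60)` moves `a` to
`a c ^ (± 1 / 60)`; in an extension of the new order `Y = a ^ 60 c` would be infinitesimal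
compared to `c`, so `x`, `y`, `x y` would be `A ^ 15`, `A ^ 20`, `A ^ 36` up to powers of `Y`
(`A = a⁻¹` central in `⟨a⟩ × Γ`), but `15 + 20 ≠ 36`.
-/

set_option autoImplicit false

namespace Pool.Agent.Helper7.RO

/-- positive cone of a right order, as in the frozen statement -/
def Cone {G : Type} [Group G] (P : Set G) : Prop :=
  (∀ a ∈ P, ∀ b ∈ P, a * b ∈ P) ∧ (1 : G) ∉ P ∧ (∀ a : G, a ≠ 1 → (a ∈ P ↔ a⁻¹ ∉ P))

/-- RO: well-order `ℝ` (`WellOrderingRel`); `f` is positive iff `z < f z` for the first `z` with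
`f z ≠ z`. (Product: first point moved by `f` or `g`. Inverse: the same first point.) -/
def ST_RO : Prop := ∃ P : Set (ℝ ≃o ℝ), Cone P ∧ ∀ f : ℝ ≃o ℝ, (∀ z, z < f z) → f ∈ P

/-- XY: `x z = z + 1 / 4`; `y (n + u) = n + (u / 2 + 1 / 2 | u + 1 / 4 | 2 u - 1 / 2)` for
`u ∈ [0, 1 / 2] | [1 / 2, 3 / 4] | [3 / 4, 1]`. Then `x (y (n + u)) = n +
(u / 2 + 3 / 4 | u + 1 / 2 | 2 u - 1 / 4)` has fifth power `z + 3` -/
def ST_XY : Prop := ∃ x y c : ℝ ≃o ℝ, (∀ z, c z = z + 1) ∧ x ^ 4 = c ∧ y ^ 3 = c ∧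
  (x * y) ^ 5 = c ^ 3

/-- RT (from RO, XY): the centralizer of `c` in `ℝ ≃o ℝ` -/
def ST_RT : Prop := ∃ (Γ : Type) (_ : Group Γ) (c x y : Γ) (P : Set Γ), Cone P ∧ c ∈ P ∧
  (∀ g, g * c = c * g) ∧ x ^ 4 = c ∧ y ^ 3 = c ∧ (x * y) ^ 5 = c ^ 3

/-- CON: `Y = a ^ 60 * c` commutes with `x, y, a, c`. `u = x a ^ 15`: `u ^ 4 = Y`, `v = y a ^ 20`:
`v ^ 3 = Y`, `w = x y a ^ 36`: `w ^ 5 = c ^ 3 a ^ 180 = Y ^ 3`; so `u, v, w ∈ R` (else the powers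
are not), `1 < u, v < Y` and `u v = x y a ^ 35 = w a⁻¹`, so `a⁻¹ = w⁻¹ u v < Y ^ 2`,
`c = Y (a⁻¹) ^ 60 < Y ^ 121`, against `h` for `m = 121`. (`p < q` iff `q p⁻¹ ∈ R`.) -/
def ST_CON : Prop := ∀ (G : Type) [Group G] (R : Set G) (a c x y : G), Cone R →
  a * x = x * a → a * y = y * a → a * c = c * a → x ^ 4 = c → y ^ 3 = c → (x * y) ^ 5 = c ^ 3 →
  a ^ 60 * c ∈ R → (∀ m : ℕ, c * ((a ^ 60 * c) ^ m)⁻¹ ∈ R) → False

end Pool.Agent.Helper7.RO
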